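import Mathlib
import Pool.Agent.H.MP_7538d4_al.C

set_option autoImplicit false

namespace Pool.Agent.H.MP_1d00e6_al

section wr
variable {A I : Type} [Group A] (σ : A →* Equiv.Perm I) (P : Type) [Group P]

/-- permutational wreath product -/
@[ext] structure Wr (σ : A →* Equiv.Perm I) (P : Type) where
  f : I → P
  a : A

variable {σ P}
instance : Mul (Wr σ P) := ⟨fun x y => ⟨fun i => x.f i * y.f (σ x.a⁻¹ i), x.a * y.a⟩⟩
instance : One (Wr σ P) := ⟨⟨fun _ => 1, 1⟩⟩
instance : Inv (Wr σ P) := ⟨fun x => ⟨fun i => (x.f (σ x.a i))⁻¹, x.a⁻¹⟩⟩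
@[simp] lemma mul_f (x y : Wr σ P) (i) : (x * y).f i = x.f i * y.f (σ x.a⁻¹ i) := rfl
@[simp] lemma mul_a (x y : Wr σ P) : (x * y).a = x.a * y.a := rfl
@[simp] lemma one_f (i) : (1 : Wr σ P).f i = 1 := rfl
@[simp] lemma one_a : (1 : Wr σ P).a = 1 := rfl
@[simp] lemma inv_f (x : Wr σ P) (i) : (x⁻¹).f i = (x.f (σ x.a i))⁻¹ := rfl
@[simp] lemma inv_a (x : Wr σ P) : (x⁻¹).a = x.a⁻¹ := rfl

instance : Group (Wr σ P) := Group.ofLeftAxioms
  (fun x y z => by ext <;> simp [mul_assoc])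
  (fun x => by ext <;> simp)
  (fun x => by ext <;> simp)

instance [Finite A] [Finite I] [Finite P] : Finite (Wr σ P) :=
  Finite.of_injective (fun x => (x.f, x.a)) fun x y h => by
    simp only [Prod.mk.injEq] at h
    exact Wr.ext h.1 h.2

def Wr.pr : Wr σ P →* A := ⟨⟨Wr.a, rfl⟩, fun _ _ => rfl⟩
def Wr.inr : A →* Wr σ P := ⟨⟨fun a => ⟨fun _ => 1, a⟩, rfl⟩, fun _ _ => by ext <;> simp⟩
def Wr.inl : (I → P) →* Wr σ P := ⟨⟨fun f => ⟨f, 1⟩, rfl⟩, fun _ _ => by ext <;> simp⟩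

lemma Wr.pgroup {p : ℕ} [Fact p.Prime] [Finite P] (hP : IsPGroup p P) (hA : IsPGroup p A) :
    IsPGroup p (Wr σ P) := by
  intro x
  obtain ⟨k, hk⟩ := hA x.a
  obtain ⟨e, he⟩ := IsPGroup.iff_card.1 hP
  have h1 : x ^ p ^ k = Wr.inl (x ^ p ^ k).f := Wr.ext rfl ((map_pow Wr.pr x _).trans hk)
  refine ⟨k + e, ?_⟩
  rw [pow_add, pow_mul, h1, ← map_pow, ← map_one (Wr.inl (σ := σ) (P := P))]
  congr 1
  funext i
  rw [Pi.pow_apply, ← he, pow_card_eq_one', Pi.one_apply]

variable {U : Type} [AddCommGroup U] [DistribMulAction P U]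

instance : SMul (Wr σ P) (I → U) := ⟨fun x φ i => x.f i • φ (σ x.a⁻¹ i)⟩
lemma smul_ap (x : Wr σ P) (φ : I → U) (i) : (x • φ) i = x.f i • φ (σ x.a⁻¹ i) := rfl

instance : DistribMulAction (Wr σ P) (I → U) where
  one_smul φ := by funext i; simp [smul_ap]
  mul_smul x y φ := by funext i; simp [smul_ap, mul_smul]
  smul_zero x := by funext i; simp [smul_ap]
  smul_add x φ ψ := by funext i; simp [smul_ap]

end wr

variable (p q : ℕ)

/-- a finite `p`-group acting on a finite abelian group of exponent `q`, with a base point -/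
structure St where
  A : Type
  M : Type
  [gA : Group A]
  [fA : Finite A]
  [gM : AddCommGroup M]
  [mM : Module (ZMod q) M]
  [fM : Finite M]
  [act : DistribMulAction A M]
  pA : IsPGroup p A
  m : M

attribute [instance] St.gA St.fA St.gM St.mM St.fM St.act

variable [hp : Fact p.Prime] [hq : Fact q.Prime]

def sh (n : ℕ) : Multiplicative (ZMod n) →* Equiv.Perm (ZMod n) :=
  MulAction.toPermHom (Multiplicative (ZMod n)) (ZMod n)

lemma sh_ap (n : ℕ) (a : Multiplicative (ZMod n)) (i : ZMod n) : sh n a i = a.toAdd + i := rfl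

theorem line (j : ℕ) (hj : j < q) : ∃ (X : St p q) (w b : X.M), w ≠ 0 ∧
    ∀ t : ZMod q, q ≤ t.val + j + 1 → ∃ g : X.A, g • b = X.m + t • w := by
  have hq0 := hq.out.pos
  induction j with
  | zero =>
    refine ⟨{ A := Unit, M := ZMod q, pA := IsPGroup.of_card (n := 0) (by simp), m := 0
              act := DistribMulAction.compHom _ (1 : Unit →* ℤ) }, 1, ((q - 1 : ℕ) : ZMod q),
      one_ne_zero, fun t ht => ⟨1, ?_⟩⟩
    have := ZMod.val_lt t
    change (1 : ℤ) • ((q - 1 : ℕ) : ZMod q) = (0 : ZMod q) + t • (1 : ZMod q)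
    rw [show ((q - 1 : ℕ) : ZMod q) = (t.val : ZMod q) from congrArg _ (by omega)]
    simp
  | succ j ih =>
    obtain ⟨X, w, b, hw, h⟩ := ih (by omega)
    have hn : q < p ^ q := Nat.lt_pow_self hp.out.one_lt
    have : NeZero (p ^ q) := ⟨by omega⟩
    let v : ZMod q → ZMod (p ^ q) → X.M := fun t s =>
      if s.val < q then X.m + (t - (s.val : ZMod q)) • w else b
    let m := q - (j + 1)
    let c : ZMod (p ^ q) → X.M := fun s =>
      if (-s).val < m then X.m + (((-s).val : ℕ) : ZMod q) • w else b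
    refine ⟨{ A := Wr (sh (p ^ q)) X.A, M := ZMod (p ^ q) → X.M, m := v 0
              pA := Wr.pgroup X.pA (IsPGroup.of_card (n := q) (by simp)) },
      fun s => if s.val < q then w else 0, c, fun e => hw ?_, fun t ht => ?_⟩
    · have := congrFun e 0
      rwa [if_pos (by simpa using hq0)] at this
    have key : ∀ s : ZMod (p ^ q), ∃ g : X.A, g • c (-(t.val : ZMod (p ^ q)) + s) = v t s := by
      intro s
      have htq := ZMod.val_lt t
      have e0 : -(-(t.val : ZMod (p ^ q)) + s) = (t.val : ZMod (p ^ q)) - s := by ring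
      have e1 : (t.val : ZMod (p ^ q)).val = t.val := ZMod.val_cast_of_lt (by omega)
      simp only [c, v, e0]
      by_cases hs : s.val ≤ t.val
      · have e2 : ((t.val : ZMod (p ^ q)) - s).val = t.val - s.val := by
          rw [ZMod.val_sub (by omega), e1]
        have e3 : t - (s.val : ZMod q) = ((t.val - s.val : ℕ) : ZMod q) := by
          rw [Nat.cast_sub hs]; simp
        rw [e2, if_pos (show s.val < q by omega), e3]
        split_ifs with h1
        · exact ⟨1, one_smul ..⟩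
        · exact h _ (by rw [ZMod.val_cast_of_lt (by omega)]; omega)
      · have hsn := ZMod.val_lt s
        have e2 : ((t.val : ZMod (p ^ q)) - s).val = p ^ q + t.val - s.val := by
          rw [← ZMod.val_cast_of_lt (show p ^ q + t.val - s.val < p ^ q by omega),
            Nat.cast_sub (by omega), Nat.cast_add, ZMod.natCast_self, zero_add,
            ZMod.natCast_zmod_val]
        rw [e2, if_neg (by omega)]
        split_ifs with h1
        · have e3 : t - (s.val : ZMod q) = ((q + t.val - s.val : ℕ) : ZMod q) := by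
            rw [Nat.cast_sub (by omega)]; simp
          exact h _ (by rw [e3, ZMod.val_cast_of_lt (by omega)]; omega)
        · exact ⟨1, one_smul ..⟩
    choose g hg using key
    refine ⟨⟨g, Multiplicative.ofAdd (t.val : ZMod (p ^ q))⟩, funext fun s => ?_⟩
    rw [smul_ap]
    refine (hg s).trans ?_
    simp only [v, Pi.add_apply, Pi.smul_apply]
    split_ifs
    · simp [sub_smul, add_assoc]; abel
    · simp

section aff
variable {p q} (X : St p q)

/-- the affine group `M ⋊ A` -/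
@[ext] structure Af where
  v : X.M
  a : X.A

variable {X}
instance : Mul (Af X) := ⟨fun x y => ⟨x.v + x.a • y.v, x.a * y.a⟩⟩
instance : One (Af X) := ⟨⟨0, 1⟩⟩
instance : Inv (Af X) := ⟨fun x => ⟨-(x.a⁻¹ • x.v), x.a⁻¹⟩⟩
omit hp hq in
@[simp] lemma amul_v (x y : Af X) : (x * y).v = x.v + x.a • y.v := rfl
omit hp hq in
@[simp] lemma amul_a (x y : Af X) : (x * y).a = x.a * y.a := rfl
omit hp hq in
@[simp] lemma aone_v : (1 : Af X).v = 0 := rfl
omit hp hq in
@[simp] lemma aone_a : (1 : Af X).a = 1 := rfl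
omit hp hq in
@[simp] lemma ainv_v (x : Af X) : (x⁻¹).v = -(x.a⁻¹ • x.v) := rfl
omit hp hq in
@[simp] lemma ainv_a (x : Af X) : (x⁻¹).a = x.a⁻¹ := rfl

instance : Group (Af X) := Group.ofLeftAxioms
  (fun x y z => by ext <;> simp [mul_assoc, mul_smul, add_assoc])
  (fun x => by ext <;> simp)
  (fun x => by ext <;> simp)

instance : Finite (Af X) :=
  Finite.of_injective (fun x => (x.v, x.a)) fun x y h => by
    simp only [Prod.mk.injEq] at h
    exact Af.ext h.1 h.2

def Af.pr : Af X →* X.A := ⟨⟨Af.a, rfl⟩, fun _ _ => rfl⟩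
def Af.inl : Multiplicative X.M →* Af X :=
  ⟨⟨fun v => ⟨v.toAdd, 1⟩, rfl⟩, fun _ _ => by ext <;> simp⟩
/-- stabiliser of a point -/
def Af.st (u : X.M) : X.A →* Af X :=
  ⟨⟨fun a => ⟨u - a • u, a⟩, by ext <;> simp⟩, fun _ _ => by ext <;> simp [mul_smul, smul_sub]⟩

instance : Group.IsSolvable (Af X) := by
  have := X.pA.isNilpotent
  exact Group.isSolvable_of_ker_le_range Af.inl Af.pr fun x hx =>
    ⟨Multiplicative.ofAdd x.v, Af.ext rfl (Eq.symm hx)⟩

omit hp in
lemma inl_pow (v : Multiplicative X.M) : Af.inl v ^ q = 1 := by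
  rw [← map_pow, ← map_one (Af.inl (X := X))]
  congr 1
  apply Multiplicative.toAdd.injective
  rw [toAdd_pow, ← Nat.cast_smul_eq_nsmul (ZMod q)]
  simp

omit hp in
lemma Af.ord (x : Af X) : ∃ k, x ^ (p ^ k * q) = 1 := by
  obtain ⟨k, hk⟩ := X.pA x.a
  have h1 : x ^ p ^ k = Af.inl (Multiplicative.ofAdd (x ^ p ^ k).v) :=
    Af.ext rfl ((map_pow Af.pr x _).trans hk)
  exact ⟨k, by rw [pow_mul, h1, inl_pow]⟩

def du (X : St p q) : X.A →* Equiv.Perm (X.M →+ ZMod q) where
  toFun a :=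
    { toFun := fun χ => χ.comp (DistribSMul.toAddMonoidHom _ a⁻¹)
      invFun := fun χ => χ.comp (DistribSMul.toAddMonoidHom _ a)
      left_inv := fun χ => by ext; simp
      right_inv := fun χ => by ext; simp }
  map_one' := by ext; simp
  map_mul' a b := by ext; simp [mul_smul]

theorem step (X : St p q) : ∃ (Y : St p q) (φ : Af X →* Af Y), Function.Injective φ ∧
    Nontrivial Y.M ∧
    (∀ v, ∃ v', φ (Af.inl v) = Af.inl v') ∧ (∀ a, ∃ a', φ (Af.st 0 a) = Af.st 0 a') ∧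
    (∀ a, ∃ a', φ (Af.st X.m a) = Af.st Y.m a') ∧
    ∀ x, ∃ a a', φ x = Af.st 0 a * Af.st Y.m a' := by
  obtain ⟨L, w, b, hw, h⟩ := line p q (q - 1) (by have := hq.out.pos; omega)
  have h' : ∀ t : ZMod q, ∃ g : L.A, g • b = L.m + t • w := fun t =>
    h t (by have := hq.out.pos; omega)
  choose g hg using h'
  have : Finite (X.M →+ ZMod q) := Finite.of_injective _ DFunLike.coe_injective
  let Y : St p q :=
    { A := Wr (du X) L.A, M := (X.M →+ ZMod q) → L.M, m := fun χ => L.m + χ X.m • w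
      pA := Wr.pgroup L.pA X.pA }
  let φ : Af X →* Af Y :=
    { toFun := fun x => ⟨fun χ => χ x.v • w, Wr.inr x.a⟩
      map_one' := Af.ext (funext fun χ => by simp; rfl) rfl
      map_mul' := fun x y => Af.ext (funext fun χ => by
        change χ (x.v + x.a • y.v) • w = χ x.v • w + (1 : L.A) • (χ (x.a⁻¹⁻¹ • y.v) • w)
        simp [add_smul]) (map_mul Wr.inr ..) }
  have hs : ∀ a, φ (Af.st X.m a) = Af.st Y.m (Wr.inr a) := fun a => Af.ext (funext fun χ => by
    change χ (X.m - a • X.m) • w = L.m + χ X.m • w - (1 : L.A) • (L.m + χ (a⁻¹⁻¹ • X.m) • w)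
    simp [sub_smul]) rfl
  refine ⟨Y, φ, (injective_iff_map_eq_one _).2 fun x hx => Af.ext ?_ ?_,
    ⟨fun _ => w, 0, fun e => hw (congrFun e 0)⟩, fun v => ⟨.ofAdd _, Af.ext rfl rfl⟩,
    fun a => ⟨Wr.inr a, Af.ext (funext fun χ => ?_) rfl⟩, fun a => ⟨_, hs a⟩, fun x => ?_⟩
  · refine (Module.forall_dual_apply_eq_zero_iff (ZMod q) _).1 fun χ => ?_
    exact (smul_eq_zero.1 (congrFun (congrArg Af.v hx) χ.toAddMonoidHom)).resolve_right hw
  · exact congrArg (fun z => z.a.a) hx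
  · change χ (0 - a • 0) • w = 0 - (1 : L.A) • 0
    simp
  · let c : Y.A := Wr.inl fun χ => g (χ (x.v + x.a • X.m)) * (g (χ X.m))⁻¹
    refine ⟨c, c⁻¹ * Wr.inr x.a, Af.ext ?_ (by simp [Af.st]; rfl)⟩
    have e : c • Y.m = (φ x).v + (Wr.inr x.a : Y.A) • Y.m := funext fun χ => by
      change (g _ * (g _)⁻¹) • (L.m + χ ((1 : X.A)⁻¹⁻¹ • X.m) • w) =
        χ x.v • w + (1 : L.A) • (L.m + χ (x.a⁻¹⁻¹ • X.m) • w)
      rw [inv_inv, one_smul, ← hg, mul_smul, inv_smul_smul, hg]
      simp [add_smul]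
      abel
    simp [Af.st, smul_sub, mul_smul, e]

noncomputable def sq (p q : ℕ) [Fact p.Prime] [Fact q.Prime] : ℕ → St p q
  | 0 => (line p q 0 (Fact.out : q.Prime).pos).choose
  | n + 1 => (step (sq p q n)).choose

noncomputable def ψ (p q : ℕ) [Fact p.Prime] [Fact q.Prime] (n : ℕ) :
    Af (sq p q n) →* Af (sq p q (n + 1)) := (step (sq p q n)).choose_spec.choose

lemma ψ_spec (n : ℕ) : Function.Injective (ψ p q n) ∧ Nontrivial (sq p q (n + 1)).M ∧
    (∀ v, ∃ v', ψ p q n (Af.inl v) = Af.inl v') ∧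
    (∀ a, ∃ a', ψ p q n (Af.st 0 a) = Af.st 0 a') ∧
    (∀ a, ∃ a', ψ p q n (Af.st (sq p q n).m a) = Af.st (sq p q (n + 1)).m a') ∧
    ∀ x, ∃ a a', ψ p q n x = Af.st 0 a * Af.st (sq p q (n + 1)).m a' :=
  (step (sq p q n)).choose_spec.choose_spec

end aff

open Pool.Agent.H.MP_7538d4_al

section lim
variable {G : ℕ → Type} [∀ n, Group (G n)] (φ : ∀ n, G n →* G (n + 1))

/-- union of a compatible chain of subgroups -/
noncomputable def uni (H : ∀ n, Subgroup (G n)) : Subgroup (GLim φ) := ⨆ n, (H n).map (jG φ n)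

lemma uni_pgroup {p : ℕ} (H : ∀ n, Subgroup (G n)) (h : ∀ n, (H n).map (φ n) ≤ H (n + 1))
    (hp : ∀ n, IsPGroup p (H n)) : IsPGroup p (uni φ H) := by
  have : Monotone fun n => (H n).map (jG φ n) := monotone_nat_of_le_succ fun n => by
    rintro _ ⟨x, hx, rfl⟩
    exact ⟨_, h n ⟨x, hx, rfl⟩, jG_b φ n x⟩
  rintro ⟨x, hx⟩
  obtain ⟨n, hn⟩ := (Subgroup.mem_iSup_of_directed this.directed_le).1 hx
  obtain ⟨k, hk⟩ := (hp n).map (jG φ n) ⟨x, hn⟩
  exact ⟨k, Subtype.ext (congrArg (fun z : (H n).map (jG φ n) => z.1) hk)⟩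

lemma mem_uni (H : ∀ n, Subgroup (G n)) (n : ℕ) {x : G n} (hx : x ∈ H n) : jG φ n x ∈ uni φ H :=
  Subgroup.mem_iSup_of_mem n ⟨x, hx, rfl⟩

lemma lim_solv [∀ n, Group.IsSolvable (G n)] (s : Finset (GLim φ)) :
    Group.IsSolvable (Subgroup.closure (s : Set (GLim φ))) := by
  choose n hn using exG φ
  have : Subgroup.closure (s : Set (GLim φ)) ≤ (jG φ (s.sup n)).range := by
    rw [Subgroup.closure_le]
    intro g hg
    exact hn g _ (Finset.le_sup hg)
  have h2 := Group.isSolvable_of_surjective (jG φ (s.sup n)).rangeRestrict_surjective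
  exact Group.isSolvable_of_isSolvable_injective (Subgroup.inclusion_injective this)

end lim

end Pool.Agent.H.MP_1d00e6_al
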